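import Mathlib

/-!
# Definitions for MP_6cbae3_an: Fréchet differentiability and Asplund spaces
-/

set_option autoImplicit false

namespace Pool.Agent.Results.MP_6cbae3_an.NonBaire

section defs

variable {E : Type*} [AddCommGroup E] [Module ℝ E] [TopologicalSpace E]

/-- `f` is Fréchet differentiable at `x₀`: there is a continuous linear functional `f'` such that
for every bounded set `B` and every `ε > 0` there is `δ > 0` with
`sup {|(f (x₀ + t x) - f x₀) / t - f' x| : x ∈ B} < ε` for `0 < |t| < δ`.  (For `f` defined on a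
neighbourhood `D` of `x₀` its values outside `D` do not matter, since `x₀ + t B ⊆ D` for
small `t`.) -/
def FrechetDiffAt (f : E → ℝ) (x₀ : E) : Prop :=
  ∃ f' : E →L[ℝ] ℝ, ∀ B : Set E, Bornology.IsVonNBounded ℝ B → ∀ ε : ℝ, 0 < ε →
    ∃ δ : ℝ, 0 < δ ∧ ∀ t : ℝ, 0 < |t| → |t| < δ →
      ∃ r < ε, ∀ x ∈ B, |(f (x₀ + t • x) - f x₀) / t - f' x| ≤ r

variable (E) in
/-- `E` is Asplund: every continuous convex function on a nonempty open convex set `D` is Fréchet
differentiable at all points of some dense `Gδ` subset of `D`. -/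
def IsAsplund : Prop :=
  ∀ (D : Set E) (f : E → ℝ), D.Nonempty → IsOpen D → Convex ℝ D → ConvexOn ℝ D f →
    ContinuousOn f D → ∃ G ⊆ D, IsGδ G ∧ D ⊆ closure G ∧ ∀ x ∈ G, FrechetDiffAt f x

end defs

end Pool.Agent.Results.MP_6cbae3_an.NonBaire
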