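import Pool.Agent.Work.MP_6cbae3_an.NonBaireDefs

/-!
# Products of non-Baire Asplund spaces with the real line

Let `E` be a real locally convex space that is Asplund, in the sense that every continuous convex
function on a nonempty open convex subset of `E` is Fréchet differentiable (uniformly on bounded
sets) at the points of a dense `Gδ` subset.  If `E` is not a Baire space then `E × ℝ` is Asplund.

Idea.  For `σ`, `r > 0` and `K` put `H(x) = sup {f(x, s) - K (s - σ) ^ 2 : |s - σ| ≤ r}`, a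
continuous convex function on the open convex set of all `x` with `{x} × [σ - r, σ + r] ⊆ D`.
If `H` is Fréchet differentiable at `x` and the supremum is attained at `s` with `|s - σ| < r`,
then `f` is Fréchet differentiable at `(x, s)`.  This gives countably many `Gδ` sets `T j` of
points of differentiability, with dense union.  If `E` is the union of an increasing sequence of
closed nowhere dense sets `F j`, then the union of the sets `T j \ (F j × ℝ)` is a dense `Gδ` set.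
-/

set_option autoImplicit false
set_option linter.unusedSectionVars false

open Set Topology Filter

namespace Pool.Agent.Results.MP_6cbae3_an.NonBaire

section cover

variable {E : Type*} [AddCommGroup E] [Module ℝ E] [TopologicalSpace E] [IsTopologicalAddGroup E]
  [ContinuousSMul ℝ E]

/-- A topological vector space that is not Baire is the union of an increasing sequence of closed
sets with dense complements. -/
theorem exists_cover (hB : ¬ BaireSpace E) :
    ∃ F : ℕ → Set E, (∀ n, IsClosed (F n)) ∧ (∀ n, Dense (F n)ᶜ) ∧ Monotone F ∧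
      ⋃ n, F n = univ := by
  -- a nonempty open set covered by nowhere dense closed sets
  obtain ⟨g, hgo, hgd, U, hUo, hUne, hU⟩ : ∃ g : ℕ → Set E, (∀ n, IsOpen (g n)) ∧
      (∀ n, Dense (g n)) ∧ ∃ U : Set E, IsOpen U ∧ U.Nonempty ∧ ∀ x ∈ U, ∃ n, x ∉ g n := by
    by_contra hcon
    apply hB
    refine ⟨fun g hgo hgd => ?_⟩
    rw [dense_iff_inter_open]
    intro U hUo hUne
    by_contra hempty
    apply hcon
    refine ⟨g, hgo, hgd, U, hUo, hUne, fun x hx => ?_⟩
    by_contra hx2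
    push Not at hx2
    exact hempty ⟨x, hx, mem_iInter.mpr hx2⟩
  obtain ⟨u, hu⟩ := hUne
  -- the homeomorphisms `x ↦ u + (k + 1)⁻¹ x`
  have hne : ∀ k : ℕ, ((k : ℝ) + 1)⁻¹ ≠ 0 := fun k => by positivity
  let φ : ℕ → E ≃ₜ E := fun k =>
    (Homeomorph.smulOfNeZero (((k : ℝ) + 1)⁻¹) (hne k)).trans (Homeomorph.addLeft u)
  have hφ : ∀ k x, φ k x = u + (((k : ℝ) + 1)⁻¹) • x := fun k x => rfl
  let W : ℕ → Set E := fun j => φ j.unpair.1 ⁻¹' (g j.unpair.2)
  have hWo : ∀ j, IsOpen (W j) := fun j => (hgo _).preimage (φ _).continuous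
  have hWd : ∀ j, Dense (W j) := fun j => (hgd _).preimage (φ _).isOpenMap
  have hWc : ∀ x, ∃ j, x ∉ W j := by
    intro x
    have ht : Tendsto (fun k : ℕ => u + (((k : ℝ) + 1)⁻¹) • x) atTop (𝓝 (u + (0 : ℝ) • x)) := by
      apply Tendsto.const_add
      apply Tendsto.smul_const
      have := tendsto_one_div_add_atTop_nhds_zero_nat (𝕜 := ℝ)
      simpa [one_div] using this
    rw [zero_smul, add_zero] at ht
    obtain ⟨k, hk⟩ := (ht.eventually (hUo.mem_nhds hu)).exists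
    obtain ⟨n, hn⟩ := hU _ hk
    refine ⟨Nat.pair k n, ?_⟩
    show φ (Nat.pair k n).unpair.1 x ∉ g (Nat.pair k n).unpair.2
    rw [Nat.unpair_pair]
    exact hn
  refine ⟨fun m => ⋃ j ∈ Finset.range (m + 1), (W j)ᶜ, ?_, ?_, ?_, ?_⟩
  · intro m
    apply isClosed_biUnion_finset
    intro j _
    exact (hWo j).isClosed_compl
  · intro m
    have key : ∀ s : Finset ℕ, IsOpen (⋂ j ∈ s, W j) ∧ Dense (⋂ j ∈ s, W j) := by
      intro s
      classical
      induction s using Finset.induction_on with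
      | empty => simp
      | insert a s ha ih =>
        rw [Finset.set_biInter_insert]
        exact ⟨(hWo a).inter ih.1, (hWd a).inter_of_isOpen_right ih.2 ih.1⟩
    have := (key (Finset.range (m + 1))).2
    rw [compl_iUnion₂]
    simpa using this
  · intro m m' hmm
    apply biUnion_subset_biUnion_left
    intro j hj
    simp only [Finset.coe_range, mem_Iio] at hj ⊢
    omega
  · rw [eq_univ_iff_forall]
    intro x
    obtain ⟨j, hj⟩ := hWc x
    rw [mem_iUnion]
    refine ⟨j, ?_⟩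
    rw [mem_iUnion₂]
    exact ⟨j, by simp, hj⟩

end cover

section sup

variable {E : Type*} [AddCommGroup E] [Module ℝ E] [TopologicalSpace E]

/-- The set of all `x` with `{x} × [σ - r, σ + r] ⊆ D`. -/
def slab (D : Set (E × ℝ)) (σ r : ℝ) : Set E := {x | ∀ s ∈ Icc (σ - r) (σ + r), (x, s) ∈ D}

/-- `H(x) = sup {f(x, s) - K (s - σ) ^ 2 : |s - σ| ≤ r}` -/
noncomputable def H (f : E × ℝ → ℝ) (σ r K : ℝ) (x : E) : ℝ :=
  sSup ((fun s => f (x, s) - K * (s - σ) ^ 2) '' Icc (σ - r) (σ + r))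

variable {D : Set (E × ℝ)} {f : E × ℝ → ℝ} {σ r K : ℝ}

theorem isOpen_slab (hD : IsOpen D) (σ r : ℝ) : IsOpen (slab D σ r) := by
  rw [isOpen_iff_eventually]
  intro x hx
  exact isCompact_Icc.eventually_forall_of_forall_eventually
    (fun s hs => hD.mem_nhds (hx s hs))

theorem convex_slab (hD : Convex ℝ D) (σ r : ℝ) : Convex ℝ (slab D σ r) := by
  intro x hx y hy a b ha hb hab s hs
  have h := hD (hx s hs) (hy s hs) ha hb hab
  have h2 : a • (x, s) + b • (y, s) = (a • x + b • y, s) := by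
    rw [Prod.smul_mk, Prod.smul_mk, Prod.mk_add_mk, smul_eq_mul, smul_eq_mul, ← add_mul, hab,
      one_mul]
  rwa [h2] at h

theorem continuousOn_section (hfc : ContinuousOn f D) {x : E} (hx : x ∈ slab D σ r) :
    ContinuousOn (fun s => f (x, s) - K * (s - σ) ^ 2) (Icc (σ - r) (σ + r)) := by
  apply ContinuousOn.sub
  · exact hfc.comp (by fun_prop) (fun s hs => hx s hs)
  · fun_prop

theorem exists_argmax (hr : 0 < r) (hfc : ContinuousOn f D) {x : E} (hx : x ∈ slab D σ r) :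
    ∃ s ∈ Icc (σ - r) (σ + r), H f σ r K x = f (x, s) - K * (s - σ) ^ 2 ∧
      ∀ s' ∈ Icc (σ - r) (σ + r), f (x, s') - K * (s' - σ) ^ 2 ≤ f (x, s) - K * (s - σ) ^ 2 :=
  isCompact_Icc.exists_sSup_image_eq_and_ge (nonempty_Icc.mpr (by linarith))
    (continuousOn_section hfc hx)

theorem le_H (hr : 0 < r) (hfc : ContinuousOn f D) {x : E} (hx : x ∈ slab D σ r) {s : ℝ}
    (hs : s ∈ Icc (σ - r) (σ + r)) : f (x, s) - K * (s - σ) ^ 2 ≤ H f σ r K x := by
  obtain ⟨s', _, h1, h2⟩ := exists_argmax (K := K) hr hfc hx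
  rw [h1]
  exact h2 s hs

theorem convexOn_H (hr : 0 < r) (hf : ConvexOn ℝ D f) (hfc : ContinuousOn f D) :
    ConvexOn ℝ (slab D σ r) (H f σ r K) := by
  refine ⟨convex_slab hf.1 σ r, fun x hx y hy a b ha hb hab => ?_⟩
  have hxy : a • x + b • y ∈ slab D σ r := convex_slab hf.1 σ r hx hy ha hb hab
  obtain ⟨s, hs, h1, -⟩ := exists_argmax (K := K) hr hfc hxy
  rw [h1]
  have h := hf.2 (hx s hs) (hy s hs) ha hb hab
  have h2 : a • (x, s) + b • (y, s) = (a • x + b • y, s) := by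
    rw [Prod.smul_mk, Prod.smul_mk, Prod.mk_add_mk, smul_eq_mul, smul_eq_mul, ← add_mul, hab,
      one_mul]
  rw [h2] at h
  have hx2 := le_H (K := K) hr hfc hx hs
  have hy2 := le_H (K := K) hr hfc hy hs
  simp only [smul_eq_mul] at h ⊢
  have h3 : K * (s - σ) ^ 2 = a * (K * (s - σ) ^ 2) + b * (K * (s - σ) ^ 2) := by
    rw [← add_mul, hab, one_mul]
  nlinarith

theorem continuousOn_H (hfc : ContinuousOn f D) :
    ContinuousOn (H f σ r K) (slab D σ r) := by
  rw [continuousOn_iff_continuous_domRestrict]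
  have hcont : Continuous (fun p : slab D σ r × Icc (σ - r) (σ + r) =>
      f (p.1.1, p.2.1) - K * (p.2.1 - σ) ^ 2) := by
    apply Continuous.sub
    · apply hfc.comp_continuous (by fun_prop)
      intro p
      exact p.1.2 _ p.2.2
    · fun_prop
  have hcont' : Continuous (↿(fun (x : slab D σ r) (s : Icc (σ - r) (σ + r)) =>
      f (x.1, s.1) - K * (s.1 - σ) ^ 2)) := hcont
  have h := IsCompact.continuous_sSup (K := (univ : Set (Icc (σ - r) (σ + r)))) isCompact_univ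
    hcont'
  convert h using 1
  funext x
  show H f σ r K x.1 = _
  unfold H
  congr 1
  ext v
  simp only [mem_image, mem_univ, true_and, Subtype.exists]
  constructor
  · rintro ⟨s, hs, h⟩
    exact ⟨s, hs, h⟩
  · rintro ⟨s, hs, h⟩
    exact ⟨s, hs, h⟩

/-- The set of all `(x, s)`, with `x ∈ G` in the slab, such that the supremum defining `H(x)` is
attained at `s`, in the interior of the interval. -/
def T (D : Set (E × ℝ)) (f : E × ℝ → ℝ) (G : Set E) (σ r K : ℝ) : Set (E × ℝ) :=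
  {z | z.1 ∈ G ∧ z.1 ∈ slab D σ r ∧ |z.2 - σ| < r ∧ f z - K * (z.2 - σ) ^ 2 = H f σ r K z.1}

theorem mem_Icc_of_abs {s σ r : ℝ} (h : |s - σ| < r) : s ∈ Icc (σ - r) (σ + r) := by
  rw [abs_lt] at h
  constructor <;> linarith

theorem isGδ_T (hr : 0 < r) (hD : IsOpen D) (hfc : ContinuousOn f D) {G : Set E} (hG : IsGδ G) :
    IsGδ (T D f G σ r K) := by
  set O : Set (E × ℝ) := {z | z.1 ∈ slab D σ r ∧ |z.2 - σ| < r} with hO
  have hOo : IsOpen O := by
    apply IsOpen.inter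
    · exact (isOpen_slab hD σ r).preimage continuous_fst
    · exact isOpen_lt (f := fun z : E × ℝ => |z.2 - σ|) (by fun_prop) continuous_const
  have hOD : O ⊆ D := fun z hz => hz.1 _ (mem_Icc_of_abs hz.2)
  have hcont : ContinuousOn (fun z : E × ℝ => H f σ r K z.1 - (f z - K * (z.2 - σ) ^ 2)) O := by
    apply ContinuousOn.sub
    · exact (continuousOn_H hfc).comp continuous_fst.continuousOn (fun z hz => hz.1)
    · exact (hfc.mono hOD).sub
        (Continuous.continuousOn (f := fun z : E × ℝ => K * (z.2 - σ) ^ 2) (by fun_prop))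
  have hT : T D f G σ r K = (Prod.fst ⁻¹' G) ∩
      ⋂ n : ℕ, (O ∩ (fun z : E × ℝ => H f σ r K z.1 - (f z - K * (z.2 - σ) ^ 2)) ⁻¹'
        Iio (1 / ((n : ℝ) + 1))) := by
    ext z
    constructor
    · rintro ⟨h1, h2, h3, h4⟩
      refine ⟨h1, mem_iInter.mpr fun n => ⟨⟨h2, h3⟩, ?_⟩⟩
      show H f σ r K z.1 - (f z - K * (z.2 - σ) ^ 2) < 1 / ((n : ℝ) + 1)
      rw [h4, sub_self]
      positivity
    · rintro ⟨h1, h2⟩
      rw [mem_iInter] at h2
      have h3 := (h2 0).1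
      refine ⟨h1, h3.1, h3.2, le_antisymm (le_H hr hfc h3.1 (mem_Icc_of_abs h3.2)) ?_⟩
      by_contra hlt
      rw [not_le] at hlt
      obtain ⟨n, hn⟩ := exists_nat_one_div_lt (sub_pos.mpr hlt)
      have h4 : H f σ r K z.1 - (f z - K * (z.2 - σ) ^ 2) < 1 / ((n : ℝ) + 1) := (h2 n).2
      linarith
  rw [hT]
  exact (hG.preimage continuous_fst).inter
    (IsGδ.iInter fun n => (hcont.isOpen_inter_preimage hOo isOpen_Iio).isGδ)

variable [IsTopologicalAddGroup E] [ContinuousSMul ℝ E]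

/-- If `H` is Fréchet differentiable at `x` and the supremum is attained at an interior point `s`
then `f` is Fréchet differentiable at `(x, s)`. -/
theorem frechetDiffAt_of_argmax (hr : 0 < r) (hK : 0 ≤ K) (hD : IsOpen D) (hf : ConvexOn ℝ D f)
    (hfc : ContinuousOn f D) {x : E} {s : ℝ} (hx : x ∈ slab D σ r) (hs : |s - σ| < r)
    (hmax : f (x, s) - K * (s - σ) ^ 2 = H f σ r K x) (hH : FrechetDiffAt (H f σ r K) x) :
    FrechetDiffAt f (x, s) := by
  obtain ⟨ξ, hξ⟩ := hH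
  set c : ℝ := 2 * K * (s - σ) with hc
  refine ⟨ξ.comp (ContinuousLinearMap.fst ℝ E ℝ) + c • ContinuousLinearMap.snd ℝ E ℝ, ?_⟩
  intro B hB ε hε
  -- the projections of `B`
  have hB1 : Bornology.IsVonNBounded ℝ (Prod.fst '' B) :=
    hB.image (ContinuousLinearMap.fst ℝ E ℝ)
  have hB2 : Bornology.IsVonNBounded ℝ (Prod.snd '' B) :=
    hB.image (ContinuousLinearMap.snd ℝ E ℝ)
  rw [NormedSpace.isVonNBounded_iff, isBounded_iff_forall_norm_le] at hB2
  obtain ⟨M', hM'⟩ := hB2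
  set M : ℝ := max M' 1 with hM
  have hM1 : 1 ≤ M := le_max_right _ _
  have hMB : ∀ v ∈ B, |v.2| ≤ M := fun v hv =>
    (hM' v.2 ⟨v, hv, rfl⟩).trans (le_max_left _ _)
  -- small multiples stay in the slab
  have hnhds : {w : E | x + w ∈ slab D σ r} ∈ 𝓝 (0 : E) := by
    have : Tendsto (fun w : E => x + w) (𝓝 0) (𝓝 x) := by
      have h : Continuous fun w : E => x + w := by fun_prop
      simpa using h.tendsto 0
    exact this ((isOpen_slab hD σ r).mem_nhds hx)
  have habs := hB1 hnhds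
  rw [absorbs_iff_eventually_nhds_zero (mem_of_mem_nhds hnhds), Metric.eventually_nhds_iff] at habs
  obtain ⟨δ₂, hδ₂, hδ₂'⟩ := habs
  have hslab : ∀ t : ℝ, |t| < δ₂ → ∀ v ∈ B, x + t • v.1 ∈ slab D σ r := by
    intro t ht v hv
    have h := hδ₂' (y := t) (by rwa [dist_zero_right, Real.norm_eq_abs])
    exact h ⟨v, hv, rfl⟩
  obtain ⟨δ₁, hδ₁, hδ₁'⟩ := hξ _ hB1 (ε / 3) (by positivity)
  have hrs : 0 < r - |s - σ| := by linarith
  -- the upper estimate
  have upper : ∀ t : ℝ, |t| < δ₁ / 2 → |t| < δ₂ / 2 → |t| < (r - |s - σ|) / (2 * M) →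
      ∀ v ∈ B, ((x, s) + t • v ∈ D) ∧ f ((x, s) + t • v) ≤
        f (x, s) + t * (ξ v.1 + c * v.2) + |t| * (ε / 3) + 2 * K * M ^ 2 * |t| ^ 2 := by
    intro t ht1 ht2 ht3 v hv
    have h2t : |2 * t| = 2 * |t| := by rw [abs_mul, abs_two]
    have hsl : x + (2 * t) • v.1 ∈ slab D σ r := hslab _ (by rw [h2t]; linarith) v hv
    have hsI : s ∈ Icc (σ - r) (σ + r) := mem_Icc_of_abs hs
    have htv : |2 * t * v.2| < r - |s - σ| := by
      rw [abs_mul, h2t]
      calc 2 * |t| * |v.2| ≤ 2 * |t| * M := by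
            have := hMB v hv
            have := abs_nonneg t
            gcongr
        _ < 2 * ((r - |s - σ|) / (2 * M)) * M := by gcongr
        _ = r - |s - σ| := by field_simp
    have hs2 : s + 2 * t * v.2 ∈ Icc (σ - r) (σ + r) := by
      apply mem_Icc_of_abs
      calc |s + 2 * t * v.2 - σ| = |(s - σ) + 2 * t * v.2| := by ring_nf
        _ ≤ |s - σ| + |2 * t * v.2| := abs_add_le _ _
        _ < r := by linarith
    have hp1 : (x + (2 * t) • v.1, s) ∈ D := hsl s hsI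
    have hp2 : (x, s + 2 * t * v.2) ∈ D := hx _ hs2
    have hmid : (1 / 2 : ℝ) • (x + (2 * t) • v.1, s) + (1 / 2 : ℝ) • (x, s + 2 * t * v.2) =
        (x, s) + t • v := by
      ext
      · simp only [Prod.smul_mk, Prod.mk_add_mk, Prod.fst_add, Prod.smul_fst]
        rw [smul_add, smul_smul, add_right_comm, ← add_smul,
          show (1 / 2 : ℝ) + 1 / 2 = 1 by norm_num, one_smul,
          show (1 / 2 : ℝ) * (2 * t) = t by ring]
      · simp only [Prod.smul_mk, Prod.mk_add_mk, Prod.snd_add, Prod.smul_snd, smul_eq_mul]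
        ring
    have hcomb := hf.2 hp1 hp2 (by norm_num : (0 : ℝ) ≤ 1 / 2) (by norm_num : (0 : ℝ) ≤ 1 / 2)
      (by norm_num)
    have hmemD := hf.1 hp1 hp2 (by norm_num : (0 : ℝ) ≤ 1 / 2) (by norm_num : (0 : ℝ) ≤ 1 / 2)
      (by norm_num)
    rw [hmid] at hcomb hmemD
    refine ⟨hmemD, hcomb.trans ?_⟩
    simp only [smul_eq_mul]
    -- first point
    have hA : f (x + (2 * t) • v.1, s) ≤ f (x, s) + 2 * t * ξ v.1 + 2 * |t| * (ε / 3) := by
      have h1 := le_H (K := K) hr hfc hsl hsI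
      have h2 : H f σ r K (x + (2 * t) • v.1) ≤
          H f σ r K x + 2 * t * ξ v.1 + 2 * |t| * (ε / 3) := by
        rcases eq_or_ne t 0 with rfl | ht0
        · simp
        · obtain ⟨ρ, hρ, hρ'⟩ := hδ₁' (2 * t) (by rw [h2t]; positivity) (by rw [h2t]; linarith)
          have h3 := hρ' v.1 ⟨v, hv, rfl⟩
          have h4 : |(H f σ r K (x + (2 * t) • v.1) - H f σ r K x) - (2 * t) * ξ v.1| ≤
              2 * |t| * (ε / 3) := by
            have h5 : (H f σ r K (x + (2 * t) • v.1) - H f σ r K x) - (2 * t) * ξ v.1 =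
                (2 * t) * ((H f σ r K (x + (2 * t) • v.1) - H f σ r K x) / (2 * t) - ξ v.1) := by
              field_simp
            rw [h5, abs_mul, h2t]
            have := abs_nonneg t
            have h6 := h3.trans hρ.le
            gcongr
          have h7 := (abs_le.mp h4).2
          linarith
      linarith
    -- second point
    have hBd : f (x, s + 2 * t * v.2) ≤ f (x, s) + 2 * t * (c * v.2) + 4 * K * M ^ 2 * |t| ^ 2 := by
      have h1 := le_H (K := K) hr hfc hx hs2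
      have h2 : K * (s + 2 * t * v.2 - σ) ^ 2 - K * (s - σ) ^ 2 =
          2 * t * (c * v.2) + 4 * K * (t ^ 2 * v.2 ^ 2) := by
        rw [hc]; ring
      have h3 : t ^ 2 * v.2 ^ 2 ≤ |t| ^ 2 * M ^ 2 := by
        rw [sq_abs]
        apply mul_le_mul_of_nonneg_left _ (sq_nonneg t)
        rw [← sq_abs v.2]
        exact pow_le_pow_left₀ (abs_nonneg _) (hMB v hv) 2
      have h4 : 4 * K * (t ^ 2 * v.2 ^ 2) ≤ 4 * K * (|t| ^ 2 * M ^ 2) := by gcongr
      linarith
    linarith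
  -- conclusion
  set δ₃ : ℝ := (ε / 3) / (2 * K * M ^ 2 + 1) with hδ₃
  have hden : 0 < 2 * K * M ^ 2 + 1 := by positivity
  refine ⟨min (min (δ₁ / 2) (δ₂ / 2)) (min ((r - |s - σ|) / (2 * M)) δ₃),
    lt_min (lt_min (by positivity) (by positivity)) (lt_min (by positivity) (by positivity)), ?_⟩
  intro t ht0 ht
  have ht1 : |t| < δ₁ / 2 := ht.trans_le ((min_le_left _ _).trans (min_le_left _ _))
  have ht2 : |t| < δ₂ / 2 := ht.trans_le ((min_le_left _ _).trans (min_le_right _ _))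
  have ht3 : |t| < (r - |s - σ|) / (2 * M) :=
    ht.trans_le ((min_le_right _ _).trans (min_le_left _ _))
  have ht4 : |t| < δ₃ := ht.trans_le ((min_le_right _ _).trans (min_le_right _ _))
  refine ⟨2 * (ε / 3), by linarith, ?_⟩
  intro v hv
  have hne : t ≠ 0 := abs_pos.mp ht0
  obtain ⟨hD1, hU1⟩ := upper t ht1 ht2 ht3 v hv
  obtain ⟨hD2, hU2⟩ := upper (-t) (by rwa [abs_neg]) (by rwa [abs_neg]) (by rwa [abs_neg]) v hv
  have hmid : (1 / 2 : ℝ) • ((x, s) + t • v) + (1 / 2 : ℝ) • ((x, s) + (-t) • v) = (x, s) := by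
    rw [← smul_add, neg_smul]
    have : (x, s) + t • v + ((x, s) + -(t • v)) = (2 : ℝ) • (x, s) := by
      rw [two_smul]; abel
    rw [this, smul_smul]
    norm_num
  have hcomb := hf.2 hD1 hD2 (by norm_num : (0 : ℝ) ≤ 1 / 2) (by norm_num : (0 : ℝ) ≤ 1 / 2)
    (by norm_num)
  rw [hmid] at hcomb
  simp only [smul_eq_mul] at hcomb
  rw [abs_neg] at hU2
  have hsmall : 2 * K * M ^ 2 * |t| ^ 2 ≤ |t| * (ε / 3) := by
    have h1 : (2 * K * M ^ 2 + 1) * |t| ≤ ε / 3 := by
      rw [hδ₃, lt_div_iff₀ hden] at ht4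
      linarith
    have h2 : 2 * K * M ^ 2 * |t| ≤ ε / 3 := by nlinarith
    calc 2 * K * M ^ 2 * |t| ^ 2 = (2 * K * M ^ 2 * |t|) * |t| := by ring
      _ ≤ (ε / 3) * |t| := by gcongr
      _ = _ := by ring
  have hL : (ξ.comp (ContinuousLinearMap.fst ℝ E ℝ) + c • ContinuousLinearMap.snd ℝ E ℝ) v =
      ξ v.1 + c * v.2 := by simp
  rw [hL]
  have h5 : (f ((x, s) + t • v) - f (x, s)) / t - (ξ v.1 + c * v.2) =
      (f ((x, s) + t • v) - f (x, s) - t * (ξ v.1 + c * v.2)) / t := by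
    field_simp
  rw [h5, abs_div, div_le_iff₀ ht0, abs_le]
  constructor
  · nlinarith
  · nlinarith

end sup

section main

variable {E : Type*} [AddCommGroup E] [Module ℝ E] [TopologicalSpace E] [IsTopologicalAddGroup E]
  [ContinuousSMul ℝ E]

/-- Density of the sets `T`. -/
theorem exists_params {D : Set (E × ℝ)} {f : E × ℝ → ℝ} (hD : IsOpen D)
    (hfc : ContinuousOn f D) {z : E × ℝ} (hz : z ∈ D) {O : Set (E × ℝ)} (hO : IsOpen O)
    (hzO : z ∈ O) :
    ∃ (σ r : ℚ) (K : ℕ), 0 < r ∧ ∃ V : Set E, IsOpen V ∧ V.Nonempty ∧ V ⊆ slab D σ r ∧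
      (∀ x ∈ V, ∀ s ∈ Icc ((σ : ℝ) - r) (σ + r), (x, s) ∈ O) ∧
      ∀ x ∈ V, ∀ s ∈ Icc ((σ : ℝ) - r) (σ + r),
        H f σ r K x = f (x, s) - K * (s - σ) ^ 2 → |s - σ| < r := by
  obtain ⟨x₀, s₀⟩ := z
  have hmem : O ∩ D ∈ 𝓝 (x₀, s₀) := (hO.inter hD).mem_nhds ⟨hzO, hz⟩
  rw [nhds_prod_eq, Filter.mem_prod_iff] at hmem
  obtain ⟨U, hU, I, hI, hUI⟩ := hmem
  obtain ⟨δ, hδ, hδI⟩ := Metric.mem_nhds_iff.mp hI
  obtain ⟨σ, hσ1, hσ2⟩ := exists_rat_btwn (show s₀ - δ / 2 < s₀ + δ / 2 by linarith)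
  obtain ⟨r, hr1, hr2⟩ := exists_rat_btwn (show (0 : ℝ) < δ / 2 by linarith)
  have hr0 : (0 : ℚ) < r := by exact_mod_cast hr1
  have hII : ∀ s ∈ Icc ((σ : ℝ) - r) (σ + r), s ∈ I := by
    intro s hs
    apply hδI
    rw [Metric.mem_ball, Real.dist_eq, abs_lt]
    constructor <;> linarith [hs.1, hs.2]
  have hUm : ∀ x ∈ U, ∀ s ∈ Icc ((σ : ℝ) - r) (σ + r), (x, s) ∈ O ∩ D :=
    fun x hx s hs => hUI (mk_mem_prod hx (hII s hs))
  have hx₀ : x₀ ∈ U := mem_of_mem_nhds hU
  have hσm : (σ : ℝ) ∈ Icc ((σ : ℝ) - r) (σ + r) := ⟨by linarith, by linarith⟩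
  have hσp : (σ : ℝ) + r ∈ Icc ((σ : ℝ) - r) (σ + r) := ⟨by linarith, by linarith⟩
  have hσn : (σ : ℝ) - r ∈ Icc ((σ : ℝ) - r) (σ + r) := ⟨by linarith, by linarith⟩
  obtain ⟨K, hK⟩ := exists_nat_gt ((max (f (x₀, (σ : ℝ) + r)) (f (x₀, (σ : ℝ) - r)) -
    f (x₀, (σ : ℝ))) / (r : ℝ) ^ 2)
  rw [div_lt_iff₀ (by positivity)] at hK
  have hcontAt : ∀ s ∈ Icc ((σ : ℝ) - r) (σ + r), ContinuousAt (fun x : E => f (x, s)) x₀ := by
    intro s hs
    have h1 : ContinuousAt f (x₀, s) := hfc.continuousAt (hD.mem_nhds (hUm x₀ hx₀ s hs).2)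
    exact ContinuousAt.comp (f := fun x : E => (x, s)) (g := f) h1 (by fun_prop)
  have hev : ∀ᶠ x in 𝓝 x₀, x ∈ interior U ∧
      f (x, (σ : ℝ) + r) - K * (r : ℝ) ^ 2 < f (x, (σ : ℝ)) ∧
      f (x, (σ : ℝ) - r) - K * (r : ℝ) ^ 2 < f (x, (σ : ℝ)) := by
    refine (show ∀ᶠ x in 𝓝 x₀, x ∈ interior U from
      isOpen_interior.mem_nhds (mem_interior_iff_mem_nhds.mpr hU)).and ?_
    have h1 : f (x₀, (σ : ℝ) + r) - K * (r : ℝ) ^ 2 < f (x₀, (σ : ℝ)) := by
      have := le_max_left (f (x₀, (σ : ℝ) + r)) (f (x₀, (σ : ℝ) - r))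
      linarith
    have h2 : f (x₀, (σ : ℝ) - r) - K * (r : ℝ) ^ 2 < f (x₀, (σ : ℝ)) := by
      have := le_max_right (f (x₀, (σ : ℝ) + r)) (f (x₀, (σ : ℝ) - r))
      linarith
    refine (((hcontAt _ hσp).sub continuousAt_const).eventually_lt (hcontAt _ hσm) h1).and
      (((hcontAt _ hσn).sub continuousAt_const).eventually_lt (hcontAt _ hσm) h2)
  obtain ⟨V, hVsub, hVo, hxV⟩ := mem_nhds_iff.mp hev
  have hVU : V ⊆ U := fun x hx => interior_subset (hVsub hx).1
  refine ⟨σ, r, K, hr0, V, hVo, ⟨x₀, hxV⟩, fun x hx s hs => (hUm x (hVU hx) s hs).2,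
    fun x hx s hs => (hUm x (hVU hx) s hs).1, ?_⟩
  intro x hx s hs hmax
  have hsl : x ∈ slab D σ r := fun s hs => (hUm x (hVU hx) s hs).2
  have h0 := le_H (K := (K : ℝ)) (by exact_mod_cast hr0) hfc hsl hσm
  rw [hmax, sub_self, zero_pow two_ne_zero, mul_zero, sub_zero] at h0
  obtain ⟨-, h1, h2⟩ := hVsub hx
  rw [abs_lt]
  constructor
  · rcases hs.1.lt_or_eq with h | h
    · linarith
    · exfalso
      rw [← h] at h0
      have : (σ : ℝ) - r - σ = -r := by ring
      rw [this, neg_sq] at h0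
      linarith
  · rcases hs.2.lt_or_eq with h | h
    · linarith
    · exfalso
      rw [h] at h0
      have : (σ : ℝ) + r - σ = r := by ring
      rw [this] at h0
      linarith

theorem main (hE : IsAsplund E) (hB : ¬ BaireSpace E) : IsAsplund (E × ℝ) := by
  intro D f hDne hD hDc hf hfc
  obtain ⟨F, hFc, hFd, hFm, hFu⟩ := exists_cover hB
  obtain ⟨e, he⟩ := exists_surjective_nat (ℚ × ℚ × ℕ)
  -- dense `Gδ` sets of points of differentiability of `H`
  have hG : ∀ j : ℕ, 0 < (e j).2.1 → ∃ G ⊆ slab D ((e j).1 : ℝ) ((e j).2.1 : ℝ), IsGδ G ∧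
      slab D ((e j).1 : ℝ) ((e j).2.1 : ℝ) ⊆ closure G ∧
      ∀ x ∈ G, FrechetDiffAt (H f ((e j).1 : ℝ) ((e j).2.1 : ℝ) ((e j).2.2 : ℝ)) x := by
    intro j hj
    have hj' : (0 : ℝ) < ((e j).2.1 : ℝ) := by exact_mod_cast hj
    rcases (slab D ((e j).1 : ℝ) ((e j).2.1 : ℝ)).eq_empty_or_nonempty with h | h
    · refine ⟨∅, empty_subset _, IsGδ.empty, ?_, fun x hx => absurd hx (notMem_empty x)⟩
      rw [h]
      exact empty_subset _
    · exact hE _ _ h (isOpen_slab hD _ _) (convex_slab hDc _ _) (convexOn_H hj' hf hfc)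
        (continuousOn_H hfc)
  choose! G hGsub hGδ hGd hGF using hG
  set S : ℕ → Set (E × ℝ) := fun j =>
    if 0 < (e j).2.1 then
      T D f (G j) ((e j).1 : ℝ) ((e j).2.1 : ℝ) ((e j).2.2 : ℝ) ∩ (Prod.fst ⁻¹' (F j))ᶜ
    else ∅ with hS
  have hSδ : ∀ j, IsGδ (S j) := by
    intro j
    simp only [hS]
    split_ifs with hj
    · have hj' : (0 : ℝ) < ((e j).2.1 : ℝ) := by exact_mod_cast hj
      exact (isGδ_T hj' hD hfc (hGδ j hj)).inter
        ((hFc j).preimage continuous_fst).isOpen_compl.isGδ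
    · exact IsGδ.empty
  have hSF : ∀ j, S j ⊆ (Prod.fst ⁻¹' (F j))ᶜ := by
    intro j z hz
    simp only [hS] at hz
    split_ifs at hz with hj
    · exact hz.2
    · exact absurd hz (notMem_empty z)
  refine ⟨⋃ j, S j, ?_, ?_, ?_, ?_⟩
  · -- contained in `D`
    apply iUnion_subset
    intro j z hz
    simp only [hS] at hz
    split_ifs at hz with hj
    · obtain ⟨⟨_, h2, h3, _⟩, _⟩ := hz
      exact h2 _ (mem_Icc_of_abs h3)
    · exact absurd hz (notMem_empty z)
  · -- `Gδ`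
    have heq : ⋃ j, S j = ⋂ m, ((Prod.fst ⁻¹' (F m))ᶜ ∪ ⋃ j ∈ Iio m, S j) := by
      ext z
      constructor
      · intro hz
        obtain ⟨j, hj⟩ := mem_iUnion.mp hz
        rw [mem_iInter]
        intro m
        by_cases hm : z ∈ (Prod.fst ⁻¹' (F m) : Set (E × ℝ))
        · right
          have hjm : j < m := by
            by_contra hcon
            exact hSF j hj (hFm (not_lt.mp hcon) hm)
          exact mem_iUnion₂.mpr ⟨j, hjm, hj⟩
        · left
          exact hm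
      · intro hz
        rw [mem_iInter] at hz
        have hzu : z.1 ∈ ⋃ n, F n := by rw [hFu]; exact mem_univ _
        obtain ⟨m, hm⟩ := mem_iUnion.mp hzu
        rcases hz m with h | h
        · exact absurd hm h
        · obtain ⟨j, _, hj⟩ := mem_iUnion₂.mp h
          exact mem_iUnion.mpr ⟨j, hj⟩
    rw [heq]
    refine IsGδ.iInter fun m => ?_
    exact ((hFc m).preimage continuous_fst).isOpen_compl.isGδ.union
      (IsGδ.biUnion (finite_Iio m) fun j _ => hSδ j)
  · -- dense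
    intro z hz
    rw [mem_closure_iff]
    intro O hO hzO
    obtain ⟨σ, r, K, hr, V, hVo, hVne, hVsl, hVO, hVmax⟩ := exists_params hD hfc hz hO hzO
    obtain ⟨j, hj⟩ := he (σ, r, K)
    have hj1 : (e j).1 = σ := by rw [hj]
    have hj2 : (e j).2.1 = r := by rw [hj]
    have hj3 : (e j).2.2 = K := by rw [hj]
    have hjr : 0 < (e j).2.1 := by rw [hj2]; exact hr
    have hr' : (0 : ℝ) < (r : ℝ) := by exact_mod_cast hr
    obtain ⟨y, hyV, hyF⟩ := (hFd j).inter_open_nonempty V hVo hVne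
    have hycl : y ∈ closure (G j) := by
      apply hGd j hjr
      rw [hj1, hj2]
      exact hVsl hyV
    obtain ⟨x, ⟨hxV, hxF⟩, hxG⟩ := mem_closure_iff.mp hycl (V ∩ (F j)ᶜ)
      (hVo.inter (hFc j).isOpen_compl) ⟨hyV, hyF⟩
    obtain ⟨s, hs, hmax, -⟩ := exists_argmax (K := (K : ℝ)) hr' hfc (hVsl hxV)
    refine ⟨(x, s), hVO x hxV s hs, mem_iUnion.mpr ⟨j, ?_⟩⟩
    simp only [hS]
    rw [if_pos hjr]
    refine ⟨⟨hxG, ?_, ?_, ?_⟩, hxF⟩
    · rw [hj1, hj2]; exact hVsl hxV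
    · rw [hj1, hj2]; exact hVmax x hxV s hs hmax
    · rw [hj1, hj2, hj3]; exact hmax.symm
  · -- differentiability
    intro z hz
    obtain ⟨j, hj⟩ := mem_iUnion.mp hz
    simp only [hS] at hj
    split_ifs at hj with hjr
    · obtain ⟨⟨h1, h2, h3, h4⟩, _⟩ := hj
      have hj' : (0 : ℝ) < ((e j).2.1 : ℝ) := by exact_mod_cast hjr
      exact frechetDiffAt_of_argmax hj' (Nat.cast_nonneg _) hD hf hfc h2 h3 h4 (hGF j hjr _ h1)
    · exact absurd hj (notMem_empty z)

end main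


end Pool.Agent.Results.MP_6cbae3_an.NonBaire
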